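import Mathlib

/-!
# Notes: towards a polynomial bound for self-avoiding walks (not finished)

Notation of `H982R3`, `W387.S`, `TH508.LT`: `U q` = mass at `z_c` of the bridges of width `< q`,
`u_a` = mass of those of width in `[a, 2 a)`, `Λ_a` = mass of the irreducible bridges of width
at least `a`, `Λ_a U_a ≤ C`; folds `(X ι Y | β')`, where `ι` is the irreducible piece covering the
mark of the strand.

(A) Choice of the small scale. Use the T-moves only up to the scale `q'` with `U q' = c₁ U q`
(`c₁` a small constant), not up to `q / 16`. Folds whose narrow side has width `a ∈ [q', 16 q]` cost
`∑ u_a / U_a ≤ C log (1 / c₁)` if `ι` is dropped. (Gap found by helper21: where `U` is almost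
constant on `[q', q]` the T-moves can merge a wide piece on the other side with `Y`; then one unit
per dyadic scale may be lost. Gap found by helper95: folds between strands of different scales.)

(B) Order of the walls. If the strand `X ι Y` wraps around the end of the next strand (overhang),
unfold all the walls whose peak is within `q'` of the fold: the new strands `M₀ > A₁ > M₁ > ... > M_j`
have widths between the width of the next strand minus `q'` and the width of the first strand. If
`q'` were `0`, the completely resolved walk would be a list sorted by width with the shape of a
binary tree (Catalan numbers, `C ^ n`), so `∑ C ^ n (∑ ν) ^ n / n ! = exp (C ∑ ν)`.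

(C) The slack `q'`: each increment inside a window of length `q'` contains a strand whose width is
prescribed up to `q'` when the other pieces are fixed, which gives the factor `U q' / U q = c₁`.
helper21's form: `Θ_n` (all folds with `ι` of length at most `n`) satisfies
`Θ_n ≤ L₁ + C + ∑_j C (C c₁ Θ_{n-1} ^ 3) ^ j`, `L₁ = C log (1 / c₁)`.

(D) Near misses at the visible scale `a` have probability at most `exp (- c ∑_{r ∈ [a, q]} s_r (1 - s_r))`
with `s_r` the growth rate of `U` at `r`; so one logarithm per visible scale sums to `O (log N)`.

(E) Matching of folded walks near the end of a long strand (the planned lemma, time functions).
Base time `p`; everything before `p` is a spectator; levels relative to the level at time `p`;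
windows `[α, Lm)` for the level of the fold and `[β, Lb)` for the width of the second part,
`Lm ≤ 2 α`, `Lb ≤ 2 β`, `m + Lb ≤ α`. The folded walk `v` (folded at the time `T` of its last
maximum) is admissible if for some `c`, `ν` with `m ≤ c ≤ 2 α - Lm`, `p ≤ ν ≤ T`:
`v i` has level at most `2 α - Lm` for `i ≤ ν`, level greater than `c` for `ν < i ≤ T`, and the end
of `v` can be continued strictly below its end level down to a level `≤ c` without meeting `v i`,
`ν < i ≤ N`. Then (admissible folded walks with a property `Q`) are at most as many as (walks which
are bridges from time `p` on, of width in the sum window, with `Q`), if `Q` is not changed when two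
walks agree up to a time `t` at a level `≥ α` and stay at levels `> m` afterwards. The proof is
`W387.S.planarN` with the levels `[1, j]` replaced by `[c + 1, j]` in the first application of
`U_const` and the start of the walk replaced by the time `p`; the condition `ExU` becomes trivial.
So the left half of such a fold is never touched below the zone, and double folds can be treated one
after the other.
-/
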